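import Pool.Agent.H20.QL.Defs

/-!
Project UQL, module AVOID: Rosenfeld's counting argument.
-/

set_option autoImplicit false
open Finset Matrix

namespace Pool.Agent.H20.QL

section
variable {V Ω : Type} [DecidableEq V]

/-- replace the coordinates in `Z` -/
def repl (Z : Finset V) (ω : V → Ω) (η : ↥Z → Ω) : V → Ω :=
  fun x => if h : x ∈ Z then η ⟨x, h⟩ else ω x

/-- restriction -/
def rst (Z : Finset V) (ω : V → Ω) : ↥Z → Ω := fun x => ω x

theorem rst_repl (Z : Finset V) (ω : V → Ω) (η : ↥Z → Ω) : rst Z (repl Z ω η) = η := by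
  funext x
  simp [rst, repl]

theorem repl_repl_rst (Z : Finset V) (ω : V → Ω) (η : ↥Z → Ω) :
    repl Z (repl Z ω η) (rst Z ω) = ω := by
  funext x
  by_cases h : x ∈ Z
  · simp [rst, repl, h]
  · simp [repl, h]

theorem repl_of_notMem (Z : Finset V) (ω : V → Ω) (η : ↥Z → Ω) (x : V) (h : x ∉ Z) :
    repl Z ω η x = ω x := by simp [repl, h]

open Classical in
theorem indep [Fintype V] [Fintype Ω] (Z : Finset V) (A : (V → Ω) → Prop) (b : (↥Z → Ω) → Prop)
    (hA : ∀ ω ω' : V → Ω, (∀ x, x ∉ Z → ω x = ω' x) → A ω → A ω') :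
    (univ.filter (fun ω : V → Ω => A ω ∧ b (rst Z ω))).card * (Fintype.card Ω) ^ Z.card =
      (univ.filter (fun ω : V → Ω => A ω)).card * Nat.card {η : ↥Z → Ω // b η} := by
  have h1 : (Fintype.card Ω) ^ Z.card = (univ : Finset (↥Z → Ω)).card := by
    rw [Finset.card_univ, Fintype.card_fun, Fintype.card_coe]
  have h2 : Nat.card {η : ↥Z → Ω // b η} = (univ.filter (fun η : ↥Z → Ω => b η)).card := by
    rw [Nat.card_eq_fintype_card, Fintype.card_subtype]
  rw [h1, h2, ← Finset.card_product, ← Finset.card_product]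
  refine Finset.card_bij' (fun p _ => (repl Z p.1 p.2, rst Z p.1))
    (fun p _ => (repl Z p.1 p.2, rst Z p.1)) ?_ ?_ ?_ ?_
  · intro p hp
    rw [Finset.mem_product, Finset.mem_filter] at hp
    rw [Finset.mem_product, Finset.mem_filter, Finset.mem_filter]
    exact ⟨⟨Finset.mem_univ _, hA p.1 _ (fun x hx => (repl_of_notMem Z p.1 p.2 x hx).symm)
      hp.1.2.1⟩, Finset.mem_univ _, hp.1.2.2⟩
  · intro p hp
    rw [Finset.mem_product, Finset.mem_filter, Finset.mem_filter] at hp
    rw [Finset.mem_product, Finset.mem_filter]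
    refine ⟨⟨Finset.mem_univ _, hA p.1 _ (fun x hx => (repl_of_notMem Z p.1 p.2 x hx).symm)
      hp.1.2, ?_⟩, Finset.mem_univ _⟩
    simp only
    rw [rst_repl]
    exact hp.2.2
  · intro p _
    simp only
    rw [rst_repl, repl_repl_rst]
  · intro p _
    simp only
    rw [rst_repl, repl_repl_rst]

theorem indep' [Fintype V] [Fintype Ω] (Z : Finset V) (A : (V → Ω) → Prop) (b : (↥Z → Ω) → Prop)
    (hA : ∀ ω ω' : V → Ω, (∀ x, x ∉ Z → ω x = ω' x) → A ω → A ω')
    (i1 : DecidablePred fun ω : V → Ω => A ω ∧ b (rst Z ω)) (S : Finset (V → Ω))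
    (hS : ∀ ω, ω ∈ S ↔ A ω) :
    (univ.filter (fun ω : V → Ω => A ω ∧ b (rst Z ω))).card * (Fintype.card Ω) ^ Z.card =
      S.card * Nat.card {η : ↥Z → Ω // b η} := by
  classical
  have h := indep Z A b hA
  have h2 : (univ.filter (fun ω : V → Ω => A ω)) = S := by
    ext ω; simp [hS]
  rw [h2] at h
  convert h

end

open Classical in
/-- configurations avoiding all the bad events inside `Λ` -/
noncomputable def goodConf {V Ω I : Type} [Fintype V] [Fintype Ω] (Z : I → Finset V)
    (bad : ∀ α : I, (↥(Z α) → Ω) → Prop) (Λ : Finset V) : Finset (V → Ω) :=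
  univ.filter (fun ω => ∀ α, Z α ⊆ Λ → ¬ bad α (rst (Z α) ω))

section
variable {V Ω I : Type} [Fintype V] [DecidableEq V] [Fintype Ω] (Z : I → Finset V)
    (bad : ∀ α : I, (↥(Z α) → Ω) → Prop)

omit [DecidableEq V] in
theorem mem_goodConf (Λ : Finset V) (ω : V → Ω) :
    ω ∈ goodConf Z bad Λ ↔ ∀ α, Z α ⊆ Λ → ¬ bad α (rst (Z α) ω) := by
  classical
  unfold goodConf
  simp

omit [DecidableEq V] in
theorem goodConf_mono (Λ Λ' : Finset V) (h : Λ ⊆ Λ') : goodConf Z bad Λ' ⊆ goodConf Z bad Λ := by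
  intro ω hω
  rw [mem_goodConf] at hω ⊢
  exact fun α hα => hω α (hα.trans h)

/-- if the one step bound holds for all small sets then many points can be added -/
theorem add_many (n : ℕ) (hstep : ∀ Λ : Finset V, Λ.card < n → ∀ x, x ∉ Λ →
      ((goodConf Z bad Λ).card : ℝ) ≤ 2 * ((goodConf Z bad (insert x Λ)).card : ℝ)) :
    ∀ (Y Λ : Finset V), Disjoint Y Λ → Λ.card + Y.card ≤ n →
      ((goodConf Z bad Λ).card : ℝ) ≤ 2 ^ Y.card * ((goodConf Z bad (Y ∪ Λ)).card : ℝ) := by
  intro Y
  induction Y using Finset.induction_on with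
  | empty =>
    intro Λ _ _
    simp
  | insert y Y hy ih =>
    intro Λ hd hc
    rw [Finset.card_insert_of_notMem hy] at hc ⊢
    have hd1 : y ∉ Λ := fun h => (Finset.disjoint_left.1 hd) (Finset.mem_insert_self y Y) h
    have hd2 : Disjoint Y Λ := Finset.disjoint_of_subset_left (Finset.subset_insert y Y) hd
    have h1 := ih Λ hd2 (by omega)
    have hy2 : y ∉ Y ∪ Λ := by
      rw [Finset.mem_union]; rintro (h | h)
      · exact hy h
      · exact hd1 h
    have hc2 : (Y ∪ Λ).card < n := by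
      have := Finset.card_union_le Y Λ
      omega
    have h2 := hstep (Y ∪ Λ) hc2 y hy2
    rw [Finset.insert_union, pow_succ]
    have h3 : (2 : ℝ) ^ Y.card * ((goodConf Z bad (Y ∪ Λ)).card : ℝ) ≤
        2 ^ Y.card * (2 * ((goodConf Z bad (insert y (Y ∪ Λ))).card : ℝ)) :=
      mul_le_mul_of_nonneg_left h2 (by positivity)
    calc ((goodConf Z bad Λ).card : ℝ) ≤ _ := h1
      _ ≤ _ := h3
      _ = _ := by ring

open Classical in
theorem one_step [Nonempty Ω] [Fintype I] (p : I → ℝ)
    (hp : ∀ α, (Nat.card {ω : ↥(Z α) → Ω // bad α ω} : ℝ) ≤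
      p α * (Fintype.card Ω : ℝ) ^ (Z α).card)
    (hsum : ∀ x : V, ∑ α ∈ univ.filter (fun α => x ∈ Z α), p α * 2 ^ (Z α).card ≤ 1) :
    ∀ (n : ℕ) (Λ : Finset V), Λ.card = n → ∀ x, x ∉ Λ →
      ((goodConf Z bad Λ).card : ℝ) ≤ 2 * ((goodConf Z bad (insert x Λ)).card : ℝ) := by
  have hΩ : (0 : ℝ) < Fintype.card Ω := by exact_mod_cast Fintype.card_pos
  have hp0 : ∀ α, 0 ≤ p α := by
    intro α
    by_contra h
    have h1 : p α * (Fintype.card Ω : ℝ) ^ (Z α).card < 0 :=
      mul_neg_of_neg_of_pos (not_le.1 h) (pow_pos hΩ _)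
    have h2 : (0 : ℝ) ≤ (Nat.card {ω : ↥(Z α) → Ω // bad α ω} : ℝ) := Nat.cast_nonneg _
    linarith [hp α]
  intro n
  induction n using Nat.strong_induction_on with
  | _ n ih =>
    intro Λ hΛ x hx
    have hmany := add_many Z bad n (fun Λ' h' y hy => ih Λ'.card h' Λ' rfl y hy)
    set J : Finset I := univ.filter (fun α => x ∈ Z α ∧ Z α ⊆ insert x Λ) with hJ
    -- the bad part
    have hsub : goodConf Z bad Λ ⊆ goodConf Z bad (insert x Λ) ∪
        J.biUnion (fun α => (univ : Finset (V → Ω)).filter (fun ω =>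
          (ω ∈ goodConf Z bad (Λ \ Z α)) ∧ bad α (rst (Z α) ω))) := by
      intro ω hω
      rw [Finset.mem_union]
      by_cases h : ω ∈ goodConf Z bad (insert x Λ)
      · exact Or.inl h
      · right
        rw [mem_goodConf] at h
        push Not at h
        obtain ⟨α, hα, hb⟩ := h
        rw [Finset.mem_biUnion]
        refine ⟨α, ?_, ?_⟩
        · rw [hJ, Finset.mem_filter]
          refine ⟨Finset.mem_univ _, ?_, hα⟩
          by_contra hxα
          have h2 : Z α ⊆ Λ := by
            intro y hy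
            rcases Finset.mem_insert.1 (hα hy) with h3 | h3
            · exact absurd (h3 ▸ hy) hxα
            · exact h3
          exact (mem_goodConf Z bad Λ ω).1 hω α h2 hb
        · rw [Finset.mem_filter]
          exact ⟨Finset.mem_univ _, goodConf_mono Z bad _ _ Finset.sdiff_subset hω, hb⟩
    have hcard : ((goodConf Z bad Λ).card : ℝ) ≤ ((goodConf Z bad (insert x Λ)).card : ℝ) +
        ∑ α ∈ J, (((univ : Finset (V → Ω)).filter (fun ω =>
          (ω ∈ goodConf Z bad (Λ \ Z α)) ∧ bad α (rst (Z α) ω))).card : ℝ) := by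
      have h1 := Finset.card_le_card hsub
      have h2 := Finset.card_union_le (goodConf Z bad (insert x Λ))
        (J.biUnion (fun α => (univ : Finset (V → Ω)).filter (fun ω =>
          (ω ∈ goodConf Z bad (Λ \ Z α)) ∧ bad α (rst (Z α) ω))))
      have h3 : (J.biUnion (fun α => (univ : Finset (V → Ω)).filter (fun ω =>
          (ω ∈ goodConf Z bad (Λ \ Z α)) ∧ bad α (rst (Z α) ω)))).card ≤
          ∑ α ∈ J, ((univ : Finset (V → Ω)).filter (fun ω =>
          (ω ∈ goodConf Z bad (Λ \ Z α)) ∧ bad α (rst (Z α) ω))).card := Finset.card_biUnion_le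
      have h4 := (h1.trans h2).trans (Nat.add_le_add_left h3 _)
      exact_mod_cast h4
    have hterm : ∀ α ∈ J, (((univ : Finset (V → Ω)).filter (fun ω =>
          (ω ∈ goodConf Z bad (Λ \ Z α)) ∧ bad α (rst (Z α) ω))).card : ℝ) ≤
          (p α * 2 ^ (Z α).card) * (1 / 2 * ((goodConf Z bad Λ).card : ℝ)) := by
      intro α hα
      rw [hJ, Finset.mem_filter] at hα
      obtain ⟨_, hxα, hsubα⟩ := hα
      have hA : ∀ ω ω' : V → Ω, (∀ y, y ∉ Z α → ω y = ω' y) → ω ∈ goodConf Z bad (Λ \ Z α) →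
          ω' ∈ goodConf Z bad (Λ \ Z α) := by
        intro ω ω' h h1
        rw [mem_goodConf] at h1 ⊢
        intro β hβ
        have h2 : rst (Z β) ω' = rst (Z β) ω := by
          funext y
          have h3 : (y : V) ∉ Z α := (Finset.mem_sdiff.1 (hβ y.2)).2
          exact (h y h3).symm
        rw [h2]
        exact h1 β hβ
      have h1 := indep' (Z α) (fun ω => ω ∈ goodConf Z bad (Λ \ Z α)) (bad α) hA inferInstance
        (goodConf Z bad (Λ \ Z α)) (fun _ => Iff.rfl)
      have h1' : (((univ : Finset (V → Ω)).filter (fun ω =>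
          (ω ∈ goodConf Z bad (Λ \ Z α)) ∧ bad α (rst (Z α) ω))).card : ℝ) *
          (Fintype.card Ω : ℝ) ^ (Z α).card =
          ((goodConf Z bad (Λ \ Z α)).card : ℝ) * (Nat.card {η : ↥(Z α) → Ω // bad α η} : ℝ) := by
        exact_mod_cast h1
      have h3 : (((univ : Finset (V → Ω)).filter (fun ω =>
          (ω ∈ goodConf Z bad (Λ \ Z α)) ∧ bad α (rst (Z α) ω))).card : ℝ) ≤
          ((goodConf Z bad (Λ \ Z α)).card : ℝ) * p α := by
        have h4 : (((univ : Finset (V → Ω)).filter (fun ω =>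
          (ω ∈ goodConf Z bad (Λ \ Z α)) ∧ bad α (rst (Z α) ω))).card : ℝ) *
          (Fintype.card Ω : ℝ) ^ (Z α).card ≤
          (((goodConf Z bad (Λ \ Z α)).card : ℝ) * p α) * (Fintype.card Ω : ℝ) ^ (Z α).card := by
          rw [h1', mul_assoc]
          exact mul_le_mul_of_nonneg_left (hp α) (Nat.cast_nonneg _)
        exact le_of_mul_le_mul_right h4 (pow_pos hΩ _)
      -- add the points of Z α without x
      have hZx : Z α ∩ Λ = (Z α).erase x := by
        ext y
        rw [Finset.mem_inter, Finset.mem_erase]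
        constructor
        · rintro ⟨h5, h6⟩
          exact ⟨fun h7 => hx (h7 ▸ h6), h5⟩
        · rintro ⟨h5, h6⟩
          rcases Finset.mem_insert.1 (hsubα h6) with h7 | h7
          · exact absurd h7 h5
          · exact ⟨h6, h7⟩
      have hcd : (Z α ∩ Λ).card + 1 = (Z α).card := by
        rw [hZx, Finset.card_erase_add_one hxα]
      have hun : (Z α ∩ Λ) ∪ (Λ \ Z α) = Λ := by
        ext y
        rw [Finset.mem_union, Finset.mem_inter, Finset.mem_sdiff]
        tauto
      have hdis : Disjoint (Z α ∩ Λ) (Λ \ Z α) := by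
        rw [Finset.disjoint_left]
        intro y hy hy'
        exact (Finset.mem_sdiff.1 hy').2 (Finset.mem_inter.1 hy).1
      have hcsum : (Λ \ Z α).card + (Z α ∩ Λ).card ≤ n := by
        rw [← Finset.card_union_of_disjoint hdis.symm, Finset.union_comm, hun, hΛ]
      have h8 := hmany (Z α ∩ Λ) (Λ \ Z α) hdis hcsum
      rw [hun] at h8
      have h9 : (2 : ℝ) ^ (Z α ∩ Λ).card = 1 / 2 * 2 ^ (Z α).card := by
        rw [← hcd, pow_succ]; ring
      rw [h9] at h8
      calc _ ≤ ((goodConf Z bad (Λ \ Z α)).card : ℝ) * p α := h3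
        _ ≤ (1 / 2 * 2 ^ (Z α).card * ((goodConf Z bad Λ).card : ℝ)) * p α :=
          mul_le_mul_of_nonneg_right h8 (hp0 α)
        _ = _ := by ring
    have hsumJ : ∑ α ∈ J, (((univ : Finset (V → Ω)).filter (fun ω =>
          (ω ∈ goodConf Z bad (Λ \ Z α)) ∧ bad α (rst (Z α) ω))).card : ℝ) ≤
          1 / 2 * ((goodConf Z bad Λ).card : ℝ) := by
      calc _ ≤ ∑ α ∈ J, (p α * 2 ^ (Z α).card) * (1 / 2 * ((goodConf Z bad Λ).card : ℝ)) :=
            Finset.sum_le_sum hterm
        _ = (∑ α ∈ J, p α * 2 ^ (Z α).card) * (1 / 2 * ((goodConf Z bad Λ).card : ℝ)) := by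
            rw [Finset.sum_mul]
        _ ≤ 1 * (1 / 2 * ((goodConf Z bad Λ).card : ℝ)) := by
            apply mul_le_mul_of_nonneg_right _ (by positivity)
            refine le_trans ?_ (hsum x)
            apply Finset.sum_le_sum_of_subset_of_nonneg
            · intro α hα
              rw [hJ, Finset.mem_filter] at hα
              rw [Finset.mem_filter]
              exact ⟨Finset.mem_univ _, hα.2.1⟩
            · intro α _ _
              exact mul_nonneg (hp0 α) (by positivity)
        _ = _ := by ring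
    linarith

end

theorem avoid : AvoidStmt := by
  classical
  intro V Ω I _ _ _ _ _ Z bad p hne hp hsum
  have hstep := one_step Z bad p hp (by convert hsum)
  have h1 := add_many Z bad (Fintype.card V + 1)
    (fun Λ _ x hx => hstep Λ.card Λ rfl x hx) univ ∅ (by simp)
    (by simp)
  have h2 : goodConf Z bad (∅ : Finset V) = univ := by
    ext ω
    rw [mem_goodConf]
    simp only [Finset.mem_univ, iff_true]
    intro α hα
    exact absurd (Finset.subset_empty.1 hα) (hne α).ne_empty
  rw [h2, Finset.union_empty] at h1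
  have h3 : (0 : ℝ) < ((univ : Finset (V → Ω)).card : ℝ) := by
    rw [Finset.card_univ]
    exact_mod_cast Fintype.card_pos
  have h4 : 0 < (goodConf Z bad (univ : Finset V)).card := by
    by_contra h
    have h5 : (goodConf Z bad (univ : Finset V)).card = 0 := by omega
    rw [h5] at h1
    simp only [Nat.cast_zero, mul_zero] at h1
    linarith
  obtain ⟨ω, hω⟩ := Finset.card_pos.1 h4
  rw [mem_goodConf] at hω
  exact ⟨ω, fun α => hω α (Finset.subset_univ _)⟩

end Pool.Agent.H20.QL
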