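import Mathlib

/-!
# Project UQL, finite part (helper20): definitions and the statements (`def ...Stmt : Prop`) of all
modules.  Paper proof of every module: `/team-store/QL_PLAN.md`.
-/

set_option autoImplicit false
open Finset Matrix

namespace Pool.Agent.H20.QL

/-- the sign of a boolean -/
def sg (b : Bool) : ℝ := if b then 1 else -1

section
variable {V : Type} [DecidableEq V]

/-- the `n`-step balls of a neighbourhood system `nb` -/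
def nball (nb : V → Finset V) : ℕ → V → Finset V
  | 0, x => {x}
  | n + 1, x => (nball nb n x).biUnion nb

/-- the `n`-step neighbourhood of a finite set -/
def nset (nb : V → Finset V) (n : ℕ) (Z : Finset V) : Finset V := Z.biUnion (nball nb n)

/-- There is a walk of length `m` (pauses allowed) starting in `x` which visits all of `W`. -/
def Cov (nb : V → Finset V) (m : ℕ) (x : V) (W : Finset V) : Prop :=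
  ∃ w : ℕ → V, w 0 = x ∧ (∀ i, i < m → w (i + 1) ∈ nb (w i)) ∧ ∀ y ∈ W, ∃ i, i ≤ m ∧ w i = y

omit [DecidableEq V] in
/-- the squared length of the vector `a(x) ∈ ℝ^k` -/
def sq {k : ℕ} (a : Fin k → V → ℝ) (x : V) : ℝ := ∑ i, a i x ^ 2

omit [DecidableEq V] in
/-- the pairing `⟨ε(x), a(x)⟩` of the label of `x` with the vector `a(x)` -/
def pr {k : ℕ} (ε : V → Fin k → Bool) (a : Fin k → V → ℝ) (x : V) : ℝ :=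
  ∑ i, sg (ε x i) * a i x

/-- A symmetric kernel `T` on a finite set, `0 ≤ T ≤ 1`, supported in the neighbourhood system `nb`
with at most `Δ` neighbours, which contracts by `lam` all functions living in a `D`-step ball. -/
structure Kernel [Fintype V] (nb : V → Finset V) (Δ D : ℕ) (lam : ℝ) (T : Matrix V V ℝ) :
    Prop where
  refl : ∀ x, x ∈ nb x
  symm : ∀ x y, y ∈ nb x → x ∈ nb y
  deg : ∀ x, (nb x).card ≤ Δ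
  tsymm : T.IsSymm
  supp : ∀ x y, T x y ≠ 0 → y ∈ nb x
  nonneg : ∀ u : V → ℝ, 0 ≤ u ⬝ᵥ (T *ᵥ u)
  le_one : ∀ u : V → ℝ, u ⬝ᵥ (T *ᵥ u) ≤ u ⬝ᵥ u
  contr : ∀ (x : V) (u : V → ℝ), (∀ y, y ∉ nball nb D x → u y = 0) →
    u ⬝ᵥ (T *ᵥ u) ≤ lam * (u ⬝ᵥ u)

end

/-! ### Module A : quadratic forms in signs -/

def TailStmt : Prop :=
  ∀ (W : Type) [Fintype W] [DecidableEq W] (k : ℕ) (Q : Matrix W W ℝ), Q.IsSymm →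
    (∀ u : W → ℝ, 0 ≤ u ⬝ᵥ (Q *ᵥ u)) → (∀ u : W → ℝ, u ⬝ᵥ (Q *ᵥ u) ≤ u ⬝ᵥ u) →
    ∀ (σ : W → Bool) (c : ℝ),
    (Nat.card {ε : W → Fin k → Bool // c < ∑ i, (fun x => sg (σ x) * sg (ε x i)) ⬝ᵥ
        (Q *ᵥ fun x => sg (σ x) * sg (ε x i))} : ℝ) ≤
      2 ^ (k * Fintype.card W) * Real.exp (-c / 4 + k / 2 * Q.trace)

/-! ### Module B : the resolvent inequality -/

def ResolventStmt : Prop :=
  ∀ (W V : Type) [Fintype W] [DecidableEq W] [Fintype V] (A : Matrix W V ℝ) (κ : ℝ), 0 < κ →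
    ∃ Q : Matrix W W ℝ, Q.IsSymm ∧ (∀ u : W → ℝ, 0 ≤ u ⬝ᵥ (Q *ᵥ u)) ∧
      (∀ u : W → ℝ, u ⬝ᵥ (Q *ᵥ u) ≤ u ⬝ᵥ u) ∧ Q.trace ≤ (A * Aᵀ).trace / κ ∧
      ∀ (k : ℕ) (u : Fin k → W → ℝ) (β : Fin k → V → ℝ),
        (∑ i, u i ⬝ᵥ (A *ᵥ β i)) ^ 2 ≤ (∑ i, u i ⬝ᵥ (Q *ᵥ u i)) *
          ∑ i, ((A *ᵥ β i) ⬝ᵥ (A *ᵥ β i) + κ * (β i ⬝ᵥ β i))

/-! ### Module C : avoiding all bad events (Rosenfeld counting) -/

def AvoidStmt : Prop :=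
  ∀ (V Ω I : Type) [Fintype V] [DecidableEq V] [Fintype Ω] [Nonempty Ω] [Fintype I]
    (Z : I → Finset V) (bad : ∀ α : I, (↥(Z α) → Ω) → Prop) (p : I → ℝ),
    (∀ α, (Z α).Nonempty) →
    (∀ α, (Nat.card {ω : ↥(Z α) → Ω // bad α ω} : ℝ) ≤
      p α * (Fintype.card Ω : ℝ) ^ (Z α).card) →
    (∀ x : V, ∑ α ∈ univ.filter (fun α => x ∈ Z α), p α * 2 ^ (Z α).card ≤ 1) →
    ∃ ω : V → Ω, ∀ α, ¬ bad α (fun x => ω x)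

/-! ### Module D : counting -/

def CardCovStmt : Prop :=
  ∀ (V : Type) [Fintype V] [DecidableEq V] (nb : V → Finset V) (Δ : ℕ),
    (∀ x, (nb x).card ≤ Δ) → ∀ (m : ℕ) (x : V),
    Nat.card {W : Finset V // Cov nb m x W} ≤ 2 ^ (m + 1) * Δ ^ m

open Classical in
/-- the sum over all levels, sets and signs in `GoodStmt` is at most one -/
def WeightStmt : Prop :=
  ∀ (Δ M : ℕ), ∃ l0 : ℕ, ∀ (V : Type) [Fintype V] [DecidableEq V]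
    (nb : V → Finset V), (∀ x, (nb x).card ≤ Δ) → ∀ (lmax : ℕ) (x : V),
    ∑ l ∈ Finset.Icc l0 lmax, ∑ W ∈ (univ : Finset (Finset V)).filter (fun W => x ∈ W ∧
        Cov nb ((4 * (M * l) + 4) * W.card) x W),
      (2 : ℝ) ^ W.card * (Real.exp (-((2 : ℝ) ^ l / 4 * W.card) / 4 + W.card / 2) *
        2 ^ W.card) ≤ 1

/-! ### Module E : good labels -/

def GoodStmt : Prop :=
  ∀ (Δ M : ℕ), ∃ l0 : ℕ, ∀ (lmax k j D : ℕ) (lam κ : ℝ) (V : Type) [Fintype V]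
    [DecidableEq V] (nb : V → Finset V) (T : Matrix V V ℝ), Kernel nb Δ D lam T → 0 ≤ lam →
    j ≤ D → 0 < κ → k * lam ^ j ≤ κ →
    ∃ ε : V → Fin k → Bool, ∀ l, l0 ≤ l → l ≤ lmax → ∀ W : Finset V,
      (∀ x ∈ W, Cov nb ((4 * (M * l) + 4) * W.card) x W) → ∀ β : Fin k → V → ℝ,
      (∑ x ∈ W, |pr ε (fun i => (T ^ j) *ᵥ β i) x|) ^ 2 ≤
        2 ^ l / 4 * W.card * (∑ x ∈ W, sq (fun i => (T ^ j) *ᵥ β i) x +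
          κ * ∑ y ∈ nset nb j W, sq β y)

/-! ### Module F : cluster decomposition -/

def ClustersStmt : Prop :=
  ∀ (V : Type) [Fintype V] [DecidableEq V] (nb : V → Finset V),
    (∀ x, x ∈ nb x) → (∀ x y, y ∈ nb x → x ∈ nb y) → ∀ (ρ j : ℕ), 1 ≤ j → ∀ F : Finset V,
    ∃ Sm Bg : Finset (Finset V), F ⊆ Sm.biUnion id ∪ Bg.biUnion id ∧
      (∀ Z ∈ Sm, Z ⊆ F ∧ ∃ x, Z ⊆ nball nb (2 * ρ * j) x) ∧
      (∀ Z ∈ Sm, ∀ Z' ∈ Sm, Z ≠ Z' → Disjoint (nset nb ρ Z) (nset nb ρ Z')) ∧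
      (∀ W ∈ Bg, W ⊆ F ∧ ∀ x ∈ W, Cov nb ((4 * ρ + 4) * W.card) x W) ∧
      (∀ W ∈ Bg, ∀ W' ∈ Bg, W ≠ W' → Disjoint (nset nb j W) (nset nb j W'))

/-! ### Module G : summation over the levels -/

def SummationStmt : Prop :=
  ∀ (V : Type) [Fintype V] [DecidableEq V] (nb : V → Finset V) (Δ : ℕ),
    (∀ x y, y ∈ nb x → x ∈ nb y) → (∀ x, (nb x).card ≤ Δ) → ∀ (r m : ℕ)
    (f g : V → ℝ), (∀ x, 0 ≤ f x) → (∀ x, 0 ≤ g x) → ∀ (κ : ℝ), 0 ≤ κ →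
    2 * κ * (Δ : ℝ) ^ r ≤ 2 ^ m → ∀ (fam : Finset (ℤ × Finset V)),
    (∀ p ∈ fam, ∀ x ∈ p.2, (2 : ℝ) ^ p.1 ≤ f x ∧ f x < (2 : ℝ) ^ (p.1 + 1)) →
    (∀ p ∈ fam, ∀ x ∈ p.2, ∀ y ∈ nball nb r x, g y ≤ 2 ^ m * f x) →
    (∀ p ∈ fam, ∀ p' ∈ fam, p ≠ p' → p.1 = p'.1 →
      Disjoint (nset nb r p.2) (nset nb r p'.2)) →
    (∀ p ∈ fam, ∑ x ∈ p.2, f x ≤ κ * ∑ y ∈ nset nb r p.2, g y) →
    ∑ p ∈ fam, ∑ x ∈ p.2, f x ≤ 2 * κ * (2 * m + 2) * ∑ y, g y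

open Classical in
def ExceptionalStmt : Prop :=
  ∀ (V : Type) [Fintype V] [DecidableEq V] (nb : V → Finset V) (Δ : ℕ),
    (∀ x y, y ∈ nb x → x ∈ nb y) → (∀ x, (nb x).card ≤ Δ) → ∀ (r : ℕ)
    (f g : V → ℝ), (∀ x, 0 ≤ f x) → (∀ x, 0 ≤ g x) → ∀ (K : ℝ), 0 < K →
    ∑ x ∈ univ.filter (fun x => ∃ y ∈ nball nb r x, K * f x < g y), f x ≤
      (Δ : ℝ) ^ r / K * ∑ y, g y

/-! ### Module T : powers of the kernel.  Lemmas about `nball` are collected in `NballStmt`. -/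

def NballStmt : Prop :=
  ∀ (V : Type) [DecidableEq V] (nb : V → Finset V),
    ((∀ x y, y ∈ nb x → x ∈ nb y) → ∀ (n : ℕ) (x y : V), y ∈ nball nb n x → x ∈ nball nb n y) ∧
    (∀ Δ : ℕ, (∀ x, (nb x).card ≤ Δ) → ∀ (n : ℕ) (x : V), (nball nb n x).card ≤ Δ ^ n) ∧
    (∀ (m n : ℕ) (x y z : V), y ∈ nball nb m x → z ∈ nball nb n y → z ∈ nball nb (m + n) x) ∧
    ((∀ x, x ∈ nb x) → ∀ (m n : ℕ) (x : V), m ≤ n → nball nb m x ⊆ nball nb n x)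

def PowersStmt : Prop :=
  ∀ (V : Type) [Fintype V] [DecidableEq V] (nb : V → Finset V) (Δ D : ℕ) (lam : ℝ)
    (T : Matrix V V ℝ), Kernel nb Δ D lam T → 0 ≤ lam →
    (∀ (r : ℕ) (x y : V), (T ^ r) x y ≠ 0 → y ∈ nball nb r x) ∧
    (∀ (r : ℕ) (Z : Finset V) (x : V), nset nb r Z ⊆ nball nb D x →
      ∀ (k : ℕ) (c : Fin k → V → ℝ),
      ∑ z ∈ Z, sq (fun i => (T ^ r) *ᵥ c i) z ≤ lam ^ r * ∑ y ∈ nset nb r Z, sq c y) ∧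
    (∀ (j : ℕ), j ≤ D → ∀ x : V, (T ^ (2 * j)) x x ≤ lam ^ j)

/-- polynomials in `T` are bounded by their supremum on `[0,1]` -/
def PolyBoundStmt : Prop :=
  ∀ (V : Type) [Fintype V] [DecidableEq V] (T : Matrix V V ℝ), T.IsSymm →
    (∀ u : V → ℝ, 0 ≤ u ⬝ᵥ (T *ᵥ u)) → (∀ u : V → ℝ, u ⬝ᵥ (T *ᵥ u) ≤ u ⬝ᵥ u) →
    ∀ (p : Polynomial ℝ) (C : ℝ), (∀ t ∈ Set.Icc (0 : ℝ) 1, |p.eval t| ≤ C) → ∀ u : V → ℝ,
    ((Polynomial.aeval T p) *ᵥ u) ⬝ᵥ ((Polynomial.aeval T p) *ᵥ u) ≤ C ^ 2 * (u ⬝ᵥ u)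

/-! ### Module P : the polynomials -/

/-- the fixed cutoff function -/
noncomputable def cut (t0 t : ℝ) : ℝ := max 0 ((t - t0) / (1 - t0))

def PolyStmt : Prop :=
  ∀ (t0 : ℝ), 0 < t0 → t0 < 1 →
    (∀ η : ℝ, 0 < η → ∃ p : Polynomial ℝ, ∀ t ∈ Set.Icc (0 : ℝ) 1, |p.eval t - cut t0 t| ≤ η) ∧
    ∀ (j : ℕ) (η : ℝ), 0 < η → ∃ q : Polynomial ℝ,
      (∀ t ∈ Set.Icc (0 : ℝ) 1, ∀ r, r ≤ j → |t ^ (j - r) * q.eval t| ≤ 2 / t0 ^ r) ∧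
      (∀ t ∈ Set.Icc (0 : ℝ) 1, |t ^ j * q.eval t - cut t0 t| ≤ η)

/-! ### Module H : one level of the uniform integrability -/

open Classical in
def LevelStmt : Prop :=
  ∀ (V : Type) [Fintype V] [DecidableEq V] (nb : V → Finset V) (Δ D : ℕ)
    (lam : ℝ) (T : Matrix V V ℝ), Kernel nb Δ D lam T → 0 ≤ lam → lam ≤ 1 →
    ∀ (k l ρ j m1 m2 : ℕ) (κ : ℝ), 0 < κ → 1 ≤ j → 2 * ρ * j + ρ ≤ D → j ≤ D →
    2 * lam ^ ρ * (Δ : ℝ) ^ ρ ≤ 2 ^ m1 → 2 * κ * (Δ : ℝ) ^ j ≤ 2 ^ m2 →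
    ∀ (ε : V → Fin k → Bool),
    (∀ W : Finset V, (∀ x ∈ W, Cov nb ((4 * ρ + 4) * W.card) x W) → ∀ β : Fin k → V → ℝ,
      (∑ x ∈ W, |pr ε (fun i => (T ^ j) *ᵥ β i) x|) ^ 2 ≤
        2 ^ l / 4 * W.card * (∑ x ∈ W, sq (fun i => (T ^ j) *ᵥ β i) x +
          κ * ∑ y ∈ nset nb j W, sq β y)) →
    ∀ (a bρ bj : Fin k → V → ℝ), (∀ i, a i = (T ^ ρ) *ᵥ bρ i) → (∀ i, a i = (T ^ j) *ᵥ bj i) →
    ∑ x ∈ univ.filter (fun x => 2 ^ l * sq a x ≤ pr ε a x ^ 2), sq a x ≤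
      ((Δ : ℝ) ^ ρ / 2 ^ m1 + 2 * lam ^ ρ * (2 * m1 + 2)) * ∑ y, sq bρ y +
      ((Δ : ℝ) ^ j / 2 ^ m2 + 2 * κ * (2 * m2 + 2)) * ∑ y, sq bj y

/-! ### Module U : uniform integrability -/

open Classical in
/-- The output of the uniform integrability theorem for one block: `P` is a polynomial close to the
cutoff, `ε` are the labels. -/
structure UI {V : Type} [Fintype V] [DecidableEq V] (T : Matrix V V ℝ) (t0 : ℝ) (l0 : ℕ)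
    (δ : ℕ → ℝ) (k : ℕ) (P : Polynomial ℝ) (ε : V → Fin k → Bool) : Prop where
  cut : ∀ t ∈ Set.Icc (0 : ℝ) 1, |P.eval t - cut t0 t| ≤ 1 / k
  le_two : ∀ t ∈ Set.Icc (0 : ℝ) 1, |P.eval t| ≤ 2
  int : ∀ L, l0 ≤ L → ∀ b a : Fin k → V → ℝ, (∀ i, a i = (Polynomial.aeval T P) *ᵥ b i) →
    ∑ x ∈ univ.filter (fun x => 2 ^ L * sq a x ≤ pr ε a x ^ 2), pr ε a x ^ 2 ≤
      (δ L + δ k) * ∑ y, sq b y

/-- `l0` and `δ` depend only on `Δ, lam, t0`. -/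
def UnifStmt : Prop :=
  ∀ (Δ : ℕ) (lam t0 : ℝ), 0 ≤ lam → 0 < t0 → t0 < 1 → lam < t0 ^ 2 →
    ∃ (l0 : ℕ) (δ : ℕ → ℝ), (∀ n, 0 ≤ δ n) ∧ Filter.Tendsto δ Filter.atTop (nhds 0) ∧
      ∀ᶠ k : ℕ in Filter.atTop, ∃ D : ℕ, ∀ (V : Type) [Fintype V] [DecidableEq V]
        (nb : V → Finset V) (T : Matrix V V ℝ), Kernel nb Δ D lam T →
        ∃ (P : Polynomial ℝ) (ε : V → Fin k → Bool), UI T t0 l0 δ k P ε

/-! ### Module K : the operators -/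

/-- the operator `T_s = ∑ s_i D_{ε_i} H D_{ε_i}` -/
def op {V : Type} {k : ℕ} (H : Matrix V V ℝ) (ε : V → Fin k → Bool)
    (s : Fin k → Bool) : Matrix V V ℝ :=
  fun x y => H x y * ∑ i, sg (s i) * sg (ε x i) * sg (ε y i)

/-- uniform boundedness and uniform quasi-locality of the operators `op` -/
def QLStmt : Prop :=
  ∀ (t0 : ℝ), 0 < t0 → t0 < 1 → ∀ (l0 : ℕ) (δ : ℕ → ℝ),
    (∀ n, 0 ≤ δ n) → Filter.Tendsto δ Filter.atTop (nhds 0) →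
    ∃ (C : ℝ) (μ : ℕ → ℕ), 0 ≤ C ∧ ∀ n : ℕ, ∀ᶠ k : ℕ in Filter.atTop,
      ∀ (V : Type) [Fintype V] [DecidableEq V] (nb : V → Finset V) (Δ D : ℕ) (lam : ℝ)
        (T : Matrix V V ℝ), Kernel nb Δ D lam T → ∀ (P : Polynomial ℝ) (ε : V → Fin k → Bool),
        UI T t0 l0 δ k P ε → ∀ (s : Fin k → Bool),
        (∀ u v : V → ℝ, |u ⬝ᵥ (op ((Polynomial.aeval T P) ^ 2) ε s *ᵥ v)| ≤
          C * √(u ⬝ᵥ u) * √(v ⬝ᵥ v)) ∧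
        (∀ m : ℕ, 1 ≤ m → m ≤ n → ∀ U1 U2 : Finset V, Disjoint U1 (nset nb (μ m) U2) →
          ∀ u v : V → ℝ, (∀ x, x ∉ U1 → u x = 0) → (∀ x, x ∉ U2 → v x = 0) →
          |u ⬝ᵥ (op ((Polynomial.aeval T P) ^ 2) ε s *ᵥ v)| ≤
            1 / m * √(u ⬝ᵥ u) * √(v ⬝ᵥ v))

/-- for SOME signs `s` the operator is far from all matrices supported in a given sparse
symmetric relation `S`, whatever the labels are -/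
def NonapproxStmt : Prop :=
  ∀ (n : ℕ) (C : ℝ), 0 ≤ C → ∀ᶠ k : ℕ in Filter.atTop,
    ∀ (V : Type) [Fintype V] [DecidableEq V] (H : Matrix V V ℝ) (φ : V → ℝ)
      (ε : V → Fin k → Bool) (S : V → Finset V), H.IsSymm → φ ⬝ᵥ φ = 1 →
      (∀ x, (S x).card ≤ n) → (∀ x y, y ∈ S x → x ∈ S y) →
      3 / 4 ≤ (H *ᵥ φ) ⬝ᵥ (H *ᵥ φ) →
      (∀ s : Fin k → Bool, ∀ x y, |op (H ^ 2) ε s x y| ≤ C) →
      ∃ s : Fin k → Bool, ∀ B : Matrix V V ℝ, (∀ x y, B x y ≠ 0 → y ∈ S x) →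
        ∃ u v : V → ℝ, 1 / 4 * √(u ⬝ᵥ u) * √(v ⬝ᵥ v) <
          |u ⬝ᵥ ((op (H ^ 2) ε s - B) *ᵥ v)|

/-! ### The block statement (interface to the infinite part) -/

def BlkStmt : Prop :=
  ∀ (Δ : ℕ) (lam : ℝ), 0 ≤ lam → lam < 1 →
    ∃ (C : ℝ) (μ : ℕ → ℕ), 0 ≤ C ∧ ∀ n : ℕ, ∃ D : ℕ, ∀ (V : Type) [Fintype V] [DecidableEq V]
      (nb : V → Finset V) (T : Matrix V V ℝ) (φ : V → ℝ), Kernel nb Δ D lam T →
      T *ᵥ φ = φ → φ ⬝ᵥ φ = 1 → ∀ (S : V → Finset V),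
      (∀ x, (S x).card ≤ n) → (∀ x y, y ∈ S x → x ∈ S y) →
      ∃ A : Matrix V V ℝ,
        (∀ u v : V → ℝ, |u ⬝ᵥ (A *ᵥ v)| ≤ C * √(u ⬝ᵥ u) * √(v ⬝ᵥ v)) ∧
        (∀ m : ℕ, 1 ≤ m → m ≤ n → ∀ U1 U2 : Finset V, Disjoint U1 (nset nb (μ m) U2) →
          ∀ u v : V → ℝ, (∀ x, x ∉ U1 → u x = 0) → (∀ x, x ∉ U2 → v x = 0) →
          |u ⬝ᵥ (A *ᵥ v)| ≤ 1 / m * √(u ⬝ᵥ u) * √(v ⬝ᵥ v)) ∧
        (∀ B : Matrix V V ℝ, (∀ x y, B x y ≠ 0 → y ∈ S x) →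
          ∃ u v : V → ℝ, 1 / 4 * √(u ⬝ᵥ u) * √(v ⬝ᵥ v) < |u ⬝ᵥ ((A - B) *ᵥ v)|)

end Pool.Agent.H20.QL
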