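import Pool.Agent.H9.UQL.Defs
import Pool.Agent.H20.QL.Defs

/-!
Project UQL: the assembly statement which uses `BlkStmt` (finite part) and helper9's `BlockStmt`,
`NormStmt` (infinite part).
-/

set_option autoImplicit false

namespace Pool.Agent.H20.QL

open Pool.Agent.H9.UQL

/-- final assembly -/
def AsmStmt : Prop :=
  BlockStmt → BlkStmt → NormStmt →
    ∀ (X : Type) [MetricSpace X], BG X →
      (∀ T : l2 X →L[ℂ] l2 X, QLoc T →
        T ∈ closure ((StarAlgebra.adjoin ℂ (normSet X)) : Set (l2 X →L[ℂ] l2 X))) →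
      ∀ R : ℝ, 0 < R → ∀ ε : ℝ, 0 < ε → YuA X R ε

end Pool.Agent.H20.QL
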