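import Pool.Agent.H20.QL.FINITE
import Pool.Agent.H69.QL.CLUSTERS
import Pool.Agent.H97.QL.Asm
import Pool.Agent.H31.UQL.BL1
import Pool.Agent.H9.UQL.Norm
import Pool.Agent.H9.UQL.BL2
import Pool.Agent.H94.UQL.BL3
import Pool.Agent.H94.UQL.Block

/-!
Project UQL: the final theorem.
-/

set_option autoImplicit false

namespace Pool.Agent.H20.QL

open Pool.Agent.H9.UQL

theorem cartan_final (X : Type) [MetricSpace X] (hbg : BG X)
    (h : ∀ T : l2 X →L[ℂ] l2 X, QLoc T →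
        T ∈ closure ((StarAlgebra.adjoin ℂ (normSet X)) : Set (l2 X →L[ℂ] l2 X)))
    (R : ℝ) (hR : 0 < R) (ε : ℝ) (hε : 0 < ε) : YuA X R ε := by
  have hblk : BlkStmt := finite_part (clusters Pool.Agent.H27.QL.nballStmt)
  have hblock : BlockStmt := Pool.Agent.H94.UQL.block Pool.Agent.H31.UQL.bl1
    Pool.Agent.H9.UQL.bl2 Pool.Agent.H94.UQL.bl3
  exact Pool.Agent.H97.QL.asm hblock hblk Pool.Agent.H9.UQL.norm_stmt X hbg h R hR ε hε

end Pool.Agent.H20.QL
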