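import Pool.Agent.H20.QL.LEVEL
import Pool.Agent.H20.QL.AVOID
import Pool.Agent.H7.QL.GOOD
import Pool.Agent.H58.QL.TAIL
import Pool.Agent.H68.QL.CARDCOV
import Pool.Agent.H68.QL.WEIGHT
import Pool.Agent.H42.QL.POLY
import Pool.Agent.H42.QL.BLK
import Pool.Agent.H51.QL.UNIF
import Pool.Agent.H27.QL.POWERS
import Pool.Agent.H27.QL.SUMMATION
import Pool.Agent.H80.QL.QL
import Pool.Agent.H47.QL.NONAPPROX
import Pool.Agent.H47.QL.RESOLVENT

/-!
Project UQL: the finite part, assembled (up to the cluster decomposition).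
-/

set_option autoImplicit false

namespace Pool.Agent.H20.QL

theorem finite_part (hF : ClustersStmt) : BlkStmt := by
  have hgood : GoodStmt := Pool.Agent.H20.QL.good tail resolvent avoid (weight cardcov)
    Pool.Agent.H27.QL.powersStmt
  have hlevel : LevelStmt := level hF Pool.Agent.H27.QL.summationStmt
    Pool.Agent.H27.QL.exceptionalStmt Pool.Agent.H27.QL.nballStmt Pool.Agent.H27.QL.powersStmt
  have hunif : UnifStmt := Pool.Agent.H51.QL.unif hgood hlevel Pool.Agent.H42.QL.poly
    Pool.Agent.H27.QL.powersStmt Pool.Agent.H27.QL.polyBoundStmt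
  have hql : QLStmt := Pool.Agent.H80.QL.ql Pool.Agent.H42.QL.poly
    Pool.Agent.H27.QL.polyBoundStmt Pool.Agent.H27.QL.nballStmt
  exact Pool.Agent.H42.QL.blk hunif hql nonapprox

end Pool.Agent.H20.QL
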