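import Pool.Agent.H20.QL.Defs

/-!
Project UQL, module LEVEL: the mass of the set of points where the pairing with the label is large.
-/

set_option autoImplicit false
open Finset Matrix

namespace Pool.Agent.H20.QL

theorem sq_nonneg' {V : Type} {k : ℕ} (a : Fin k → V → ℝ) (x : V) : 0 ≤ sq a x :=
  Finset.sum_nonneg (fun _ _ => sq_nonneg _)

open Classical in
/-- the sum over a union is at most the sum of the sums -/
theorem sum_biUnion_le' {ι V : Type} [DecidableEq V] (s : Finset ι) (t : ι → Finset V) (f : V → ℝ)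
    (hf : ∀ x, 0 ≤ f x) : ∑ x ∈ s.biUnion t, f x ≤ ∑ i ∈ s, ∑ x ∈ t i, f x := by
  induction s using Finset.induction_on with
  | empty => simp
  | insert i s hi ih =>
    rw [Finset.sum_insert hi, Finset.biUnion_insert]
    have h1 : ∑ x ∈ t i ∪ s.biUnion t, f x ≤ ∑ x ∈ t i, f x + ∑ x ∈ s.biUnion t, f x := by
      rw [← Finset.sum_union_inter]
      have : 0 ≤ ∑ x ∈ t i ∩ s.biUnion t, f x := Finset.sum_nonneg (fun x _ => hf x)
      linarith
    linarith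

/-- the sum over a family of pairs (level, set) obtained from families of sets -/
theorem sum_fam {V : Type} [DecidableEq V] (I : Finset ℤ) (S : ℤ → Finset (Finset V)) (f : Finset V → ℝ) :
    ∑ p ∈ I.biUnion (fun i => (S i).image (fun Z => (i, Z))), f p.2 =
      ∑ i ∈ I, ∑ Z ∈ S i, f Z := by
  rw [Finset.sum_biUnion]
  · refine Finset.sum_congr rfl (fun i _ => ?_)
    rw [Finset.sum_image]
    intro Z _ Z' _ h
    exact (Prod.mk.inj h).2
  · intro i _ i' _ hii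
    rw [Function.onFun, Finset.disjoint_left]
    intro p hp hp'
    rw [Finset.mem_image] at hp hp'
    obtain ⟨Z, _, rfl⟩ := hp
    obtain ⟨Z', _, h⟩ := hp'
    exact hii (Prod.mk.inj h).1.symm

theorem pr_sq_le_of {x : ℝ} {l : ℕ} {i : ℤ} {f : ℝ} (h1 : 2 ^ l * f ≤ x ^ 2)
    (h2 : (2 : ℝ) ^ i ≤ f) : √(2 ^ l * (2 : ℝ) ^ i) ≤ |x| := by
  rw [← Real.sqrt_sq_eq_abs]
  apply Real.sqrt_le_sqrt
  have : (2 : ℝ) ^ l * (2 : ℝ) ^ i ≤ 2 ^ l * f :=
    mul_le_mul_of_nonneg_left h2 (by positivity)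
  linarith

/-- the arithmetic of a big set -/
theorem big_arith (n : ℝ) (l : ℕ) (i : ℤ) (κ S A G : ℝ) (hn : 0 < n)
    (h1 : n * √(2 ^ l * (2 : ℝ) ^ i) ≤ S) (h2 : S ^ 2 ≤ 2 ^ l / 4 * n * (A + κ * G))
    (h3 : A ≤ n * (2 : ℝ) ^ (i + 1)) : A ≤ κ * G := by
  have hp : (0 : ℝ) < 2 ^ l := by positivity
  have hq : (0 : ℝ) < (2 : ℝ) ^ i := by positivity
  have h4 : (n * √(2 ^ l * (2 : ℝ) ^ i)) ^ 2 ≤ S ^ 2 :=
    pow_le_pow_left₀ (by positivity) h1 2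
  rw [mul_pow, Real.sq_sqrt (by positivity)] at h4
  have h5 : n ^ 2 * (2 ^ l * (2 : ℝ) ^ i) ≤ 2 ^ l / 4 * n * (A + κ * G) := h4.trans h2
  have h6 : (2 : ℝ) ^ (i + 1) = 2 * (2 : ℝ) ^ i := by
    rw [zpow_add₀ (by norm_num)]; norm_num; ring
  rw [h6] at h3
  -- divide by 2^l n
  have h7 : n * (2 : ℝ) ^ i ≤ 1 / 4 * (A + κ * G) := by
    have h8 : (2 ^ l * n) * (n * (2 : ℝ) ^ i) ≤ (2 ^ l * n) * (1 / 4 * (A + κ * G)) := by
      nlinarith [h5]
    exact le_of_mul_le_mul_left h8 (by positivity)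
  nlinarith

open Classical in
theorem level (hF : ClustersStmt) (hG : SummationStmt) (hE : ExceptionalStmt) (hN : NballStmt)
    (hT : PowersStmt) : LevelStmt := by
  intro V _ _ nb Δ D lam T hK hl0 hl1 k l ρ j m1 m2 κ hκ hj hD1 hD2 hm1 hm2 ε hε a bρ bj haρ haj
  obtain ⟨hsymm, hcard, htrans, hmono⟩ := hN V nb
  obtain ⟨hsupp, hmass, hdiag⟩ := hT V nb Δ D lam T hK hl0
  set f : V → ℝ := sq a with hfdef
  have hf0 : ∀ x, 0 ≤ f x := sq_nonneg' a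
  have hgρ0 : ∀ x, 0 ≤ sq bρ x := sq_nonneg' bρ
  have hgj0 : ∀ x, 0 ≤ sq bj x := sq_nonneg' bj
  -- exceptional sets
  set Xρ : Finset V := univ.filter (fun x => ∃ y ∈ nball nb ρ x, 2 ^ m1 * f x < sq bρ y) with hXρ
  set Xj : Finset V := univ.filter (fun x => ∃ y ∈ nball nb j x, 2 ^ m2 * f x < sq bj y) with hXj
  have hXρ1 : ∑ x ∈ Xρ, f x ≤ (Δ : ℝ) ^ ρ / 2 ^ m1 * ∑ y, sq bρ y :=
    hE V nb Δ hK.symm hK.deg ρ f (sq bρ) hf0 hgρ0 (2 ^ m1) (by positivity)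
  have hXj1 : ∑ x ∈ Xj, f x ≤ (Δ : ℝ) ^ j / 2 ^ m2 * ∑ y, sq bj y :=
    hE V nb Δ hK.symm hK.deg j f (sq bj) hf0 hgj0 (2 ^ m2) (by positivity)
  set B : Finset V := univ.filter (fun x => 2 ^ l * f x ≤ pr ε a x ^ 2) with hB
  set G : Finset V := B.filter (fun x => x ∉ Xρ ∧ x ∉ Xj ∧ 0 < f x) with hGdef
  have hsplit : ∑ x ∈ B, f x ≤ ∑ x ∈ Xρ, f x + ∑ x ∈ Xj, f x + ∑ x ∈ G, f x := by
    have h1 : ∑ x ∈ B, f x ≤ ∑ x ∈ (Xρ ∪ Xj) ∪ G, f x := by
      have h2 : ∑ x ∈ B, f x = ∑ x ∈ B.filter (fun x => 0 < f x), f x := by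
        symm
        apply Finset.sum_filter_of_ne
        intro x _ hx
        exact lt_of_le_of_ne (hf0 x) (Ne.symm hx)
      rw [h2]
      apply Finset.sum_le_sum_of_subset_of_nonneg
      · intro x hx
        rw [Finset.mem_filter] at hx
        rw [Finset.mem_union, Finset.mem_union]
        by_cases h3 : x ∈ Xρ
        · exact Or.inl (Or.inl h3)
        by_cases h4 : x ∈ Xj
        · exact Or.inl (Or.inr h4)
        · exact Or.inr (Finset.mem_filter.2 ⟨hx.1, h3, h4, hx.2⟩)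
      · intro x _ _; exact hf0 x
    have h5 : ∑ x ∈ (Xρ ∪ Xj) ∪ G, f x ≤ ∑ x ∈ Xρ ∪ Xj, f x + ∑ x ∈ G, f x := by
      rw [← Finset.sum_union_inter]
      have : 0 ≤ ∑ x ∈ (Xρ ∪ Xj) ∩ G, f x := Finset.sum_nonneg (fun x _ => hf0 x)
      linarith
    have h6 : ∑ x ∈ Xρ ∪ Xj, f x ≤ ∑ x ∈ Xρ, f x + ∑ x ∈ Xj, f x := by
      rw [← Finset.sum_union_inter]
      have : 0 ≤ ∑ x ∈ Xρ ∩ Xj, f x := Finset.sum_nonneg (fun x _ => hf0 x)
      linarith
    linarith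
  -- levels
  set lev : V → ℤ := fun x => Int.log 2 (f x) with hlev
  have hlev1 : ∀ x, 0 < f x → (2 : ℝ) ^ (lev x) ≤ f x := fun x hx => by
    have := Int.zpow_log_le_self (b := 2) (by norm_num) hx
    exact_mod_cast this
  have hlev2 : ∀ x, f x < (2 : ℝ) ^ (lev x + 1) := fun x => by
    have := Int.lt_zpow_succ_log_self (b := 2) (by norm_num) (f x)
    exact_mod_cast this
  set I : Finset ℤ := G.image lev with hI
  set Fi : ℤ → Finset V := fun i => G.filter (fun x => lev x = i) with hFi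
  have hchoose : ∀ i : ℤ, ∃ Sm Bg : Finset (Finset V), Fi i ⊆ Sm.biUnion id ∪ Bg.biUnion id ∧
      (∀ Z ∈ Sm, Z ⊆ Fi i ∧ ∃ x, Z ⊆ nball nb (2 * ρ * j) x) ∧
      (∀ Z ∈ Sm, ∀ Z' ∈ Sm, Z ≠ Z' → Disjoint (nset nb ρ Z) (nset nb ρ Z')) ∧
      (∀ W ∈ Bg, W ⊆ Fi i ∧ ∀ x ∈ W, Cov nb ((4 * ρ + 4) * W.card) x W) ∧
      (∀ W ∈ Bg, ∀ W' ∈ Bg, W ≠ W' → Disjoint (nset nb j W) (nset nb j W')) :=
    fun i => hF V nb hK.refl hK.symm ρ j hj (Fi i)
  choose Sm Bg hcov hSm1 hSm2 hBg1 hBg2 using hchoose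
  have hFmem : ∀ (i : ℤ) (x : V), x ∈ Fi i → 2 ^ l * f x ≤ pr ε a x ^ 2 ∧ x ∉ Xρ ∧ x ∉ Xj ∧
      0 < f x ∧ lev x = i := by
    intro i x hx
    rw [hFi, Finset.mem_filter, hGdef, Finset.mem_filter, hB, Finset.mem_filter] at hx
    exact ⟨hx.1.1.2, hx.1.2.1, hx.1.2.2.1, hx.1.2.2.2, hx.2⟩
  have hGsum : ∑ x ∈ G, f x ≤ ∑ i ∈ I, ∑ Z ∈ Sm i, ∑ x ∈ Z, f x +
      ∑ i ∈ I, ∑ W ∈ Bg i, ∑ x ∈ W, f x := by
    have h1 : ∑ x ∈ G, f x = ∑ i ∈ I, ∑ x ∈ Fi i, f x := by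
      rw [hI, hFi]
      exact (Finset.sum_fiberwise_of_maps_to
        (fun x hx => Finset.mem_image_of_mem lev hx) f).symm
    rw [h1, ← Finset.sum_add_distrib]
    apply Finset.sum_le_sum
    intro i _
    have h2 : ∑ x ∈ Fi i, f x ≤ ∑ x ∈ (Sm i).biUnion id ∪ (Bg i).biUnion id, f x :=
      Finset.sum_le_sum_of_subset_of_nonneg (hcov i) (fun x _ _ => hf0 x)
    have h3 : ∑ x ∈ (Sm i).biUnion id ∪ (Bg i).biUnion id, f x ≤
        ∑ x ∈ (Sm i).biUnion id, f x + ∑ x ∈ (Bg i).biUnion id, f x := by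
      rw [← Finset.sum_union_inter]
      have : 0 ≤ ∑ x ∈ (Sm i).biUnion id ∩ (Bg i).biUnion id, f x :=
        Finset.sum_nonneg (fun x _ => hf0 x)
      linarith
    have h4 := sum_biUnion_le' (Sm i) id f hf0
    have h5 := sum_biUnion_le' (Bg i) id f hf0
    simp only [id] at h4 h5
    have h4' : ∑ x ∈ (Sm i).biUnion id, f x ≤ ∑ Z ∈ Sm i, ∑ x ∈ Z, f x := h4
    have h5' : ∑ x ∈ (Bg i).biUnion id, f x ≤ ∑ W ∈ Bg i, ∑ x ∈ W, f x := h5
    linarith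
  -- the small clusters
  have hsmall : ∑ i ∈ I, ∑ Z ∈ Sm i, ∑ x ∈ Z, f x ≤
      2 * lam ^ ρ * (2 * m1 + 2) * ∑ y, sq bρ y := by
    rw [← sum_fam I Sm (fun Z => ∑ x ∈ Z, f x)]
    apply hG V nb Δ hK.symm hK.deg ρ m1 f (sq bρ) hf0 hgρ0 (lam ^ ρ) (pow_nonneg hl0 ρ) hm1
    · intro p hp x hx
      rw [Finset.mem_biUnion] at hp
      obtain ⟨i, _, hp⟩ := hp
      rw [Finset.mem_image] at hp
      obtain ⟨Z, hZ, rfl⟩ := hp
      obtain ⟨_, _, _, h4, h5⟩ := hFmem i x ((hSm1 i Z hZ).1 hx)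
      simp only
      rw [← h5]
      exact ⟨hlev1 x h4, hlev2 x⟩
    · intro p hp x hx y hy
      rw [Finset.mem_biUnion] at hp
      obtain ⟨i, _, hp⟩ := hp
      rw [Finset.mem_image] at hp
      obtain ⟨Z, hZ, rfl⟩ := hp
      obtain ⟨_, h2, _, _, _⟩ := hFmem i x ((hSm1 i Z hZ).1 hx)
      by_contra h
      exact h2 (by rw [hXρ, Finset.mem_filter]; exact ⟨Finset.mem_univ _, y, hy, not_le.1 h⟩)
    · intro p hp p' hp' hne heq
      rw [Finset.mem_biUnion] at hp hp'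
      obtain ⟨i, _, hp⟩ := hp
      obtain ⟨i', _, hp'⟩ := hp'
      rw [Finset.mem_image] at hp hp'
      obtain ⟨Z, hZ, rfl⟩ := hp
      obtain ⟨Z', hZ', rfl⟩ := hp'
      simp only at heq
      subst heq
      exact hSm2 i Z hZ Z' hZ' (fun h => hne (by rw [h]))
    · intro p hp
      rw [Finset.mem_biUnion] at hp
      obtain ⟨i, _, hp⟩ := hp
      rw [Finset.mem_image] at hp
      obtain ⟨Z, hZ, rfl⟩ := hp
      obtain ⟨h1, x, hx⟩ := hSm1 i Z hZ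
      have h2 : nset nb ρ Z ⊆ nball nb D x := by
        intro y hy
        rw [nset, Finset.mem_biUnion] at hy
        obtain ⟨z, hz, hy⟩ := hy
        exact hmono hK.refl _ _ x hD1 (htrans _ _ x z y (hx hz) hy)
      have h3 := hmass ρ Z x h2 k bρ
      have h4 : (fun i => (T ^ ρ) *ᵥ bρ i) = a := by
        funext i; exact (haρ i).symm
      rw [h4] at h3
      exact h3
  -- the big sets
  have hbig : ∑ i ∈ I, ∑ W ∈ Bg i, ∑ x ∈ W, f x ≤
      2 * κ * (2 * m2 + 2) * ∑ y, sq bj y := by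
    rw [← sum_fam I Bg (fun Z => ∑ x ∈ Z, f x)]
    apply hG V nb Δ hK.symm hK.deg j m2 f (sq bj) hf0 hgj0 κ hκ.le hm2
    · intro p hp x hx
      rw [Finset.mem_biUnion] at hp
      obtain ⟨i, _, hp⟩ := hp
      rw [Finset.mem_image] at hp
      obtain ⟨Z, hZ, rfl⟩ := hp
      obtain ⟨_, _, _, h4, h5⟩ := hFmem i x ((hBg1 i Z hZ).1 hx)
      simp only
      rw [← h5]
      exact ⟨hlev1 x h4, hlev2 x⟩
    · intro p hp x hx y hy
      rw [Finset.mem_biUnion] at hp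
      obtain ⟨i, _, hp⟩ := hp
      rw [Finset.mem_image] at hp
      obtain ⟨Z, hZ, rfl⟩ := hp
      obtain ⟨_, _, h2, _, _⟩ := hFmem i x ((hBg1 i Z hZ).1 hx)
      by_contra h
      exact h2 (by rw [hXj, Finset.mem_filter]; exact ⟨Finset.mem_univ _, y, hy, not_le.1 h⟩)
    · intro p hp p' hp' hne heq
      rw [Finset.mem_biUnion] at hp hp'
      obtain ⟨i, _, hp⟩ := hp
      obtain ⟨i', _, hp'⟩ := hp'
      rw [Finset.mem_image] at hp hp'
      obtain ⟨Z, hZ, rfl⟩ := hp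
      obtain ⟨Z', hZ', rfl⟩ := hp'
      simp only at heq
      subst heq
      exact hBg2 i Z hZ Z' hZ' (fun h => hne (by rw [h]))
    · intro p hp
      rw [Finset.mem_biUnion] at hp
      obtain ⟨i, _, hp⟩ := hp
      rw [Finset.mem_image] at hp
      obtain ⟨W, hW, rfl⟩ := hp
      obtain ⟨h1, h2⟩ := hBg1 i W hW
      simp only
      rcases Finset.eq_empty_or_nonempty W with hWe | hWne
      · subst hWe
        simp only [Finset.sum_empty]
        exact mul_nonneg hκ.le (Finset.sum_nonneg (fun y _ => hgj0 y))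
      have h3 := hε W h2 bj
      have h4 : (fun i => (T ^ j) *ᵥ bj i) = a := by
        funext i; exact (haj i).symm
      rw [h4] at h3
      have hcardpos : (0 : ℝ) < W.card := by exact_mod_cast hWne.card_pos
      refine big_arith W.card l i κ (∑ x ∈ W, |pr ε a x|) (∑ x ∈ W, f x)
        (∑ y ∈ nset nb j W, sq bj y) hcardpos ?_ h3 ?_
      · rw [← nsmul_eq_mul, ← Finset.sum_const]
        apply Finset.sum_le_sum
        intro x hx
        obtain ⟨h5, _, _, h6, h7⟩ := hFmem i x (h1 hx)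
        exact pr_sq_le_of h5 (by rw [← h7]; exact hlev1 x h6)
      · rw [← nsmul_eq_mul, ← Finset.sum_const]
        apply Finset.sum_le_sum
        intro x hx
        obtain ⟨_, _, _, _, h7⟩ := hFmem i x (h1 hx)
        rw [← h7]
        exact (hlev2 x).le
  have hfin : ∑ x ∈ B, f x ≤
      ((Δ : ℝ) ^ ρ / 2 ^ m1 + 2 * lam ^ ρ * (2 * m1 + 2)) * ∑ y, sq bρ y +
      ((Δ : ℝ) ^ j / 2 ^ m2 + 2 * κ * (2 * m2 + 2)) * ∑ y, sq bj y := by
    rw [add_mul, add_mul]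
    linarith
  exact hfin

end Pool.Agent.H20.QL
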